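import Pool.Agent.R956.K13
import Pool.Agent.R475.SP

/-!
Self-avoiding polygons on the square lattice: the quotients `p_{4n} / p_{2n}²` along sparse sets of
perimeters determine the asymptotic form, and the numbers of polygons are locally geometric at most
perimeters.
-/

set_option autoImplicit false
set_option linter.unusedVariables false

namespace Pool.Agent.Results.MP_376faf_co.DoublingSparse

open Filter Topology

/-- `ω` is a self-avoiding walk with `n` steps on `ℤ²`, started at the origin. -/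
def IsSAW (n : ℕ) (ω : Fin (n + 1) → ℤ × ℤ) : Prop :=
  ω 0 = (0, 0) ∧
  (∀ i : Fin n, |(ω i.succ).1 - (ω i.castSucc).1| + |(ω i.succ).2 - (ω i.castSucc).2| = 1) ∧
  Function.Injective ω

/-- the number of `n`-step self-avoiding walks on `ℤ²` started at the origin -/
noncomputable def C (n : ℕ) : ℕ := Nat.card {ω : Fin (n + 1) → ℤ × ℤ // IsSAW n ω}

/-- `f` runs once around a simple cycle of `ℤ²` with `m` edges, from the origin. -/
def IsPolygon (m : ℕ) (f : ZMod m → ℤ × ℤ) : Prop :=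
  f 0 = 0 ∧ Function.Injective f ∧
    ∀ i : ZMod m, |(f (i + 1)).1 - (f i).1| + |(f (i + 1)).2 - (f i).2| = 1

/-- the number `p_{2n}` of self-avoiding polygons of perimeter `2n`, up to translation: a polygon
has `2n` possible starting points and `2` orientations. -/
noncomputable def p (n : ℕ) : ℝ :=
  (Nat.card {f : ZMod (2 * n) → ℤ × ℤ // IsPolygon (2 * n) f} : ℝ) / (4 * (n : ℝ))

/-- every interval `[n, n + δ √n]`, `n` large, meets `S`, for each `δ > 0` -/
def Gaps (S : Set ℕ) : Prop :=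
  ∀ δ : ℝ, 0 < δ → ∀ᶠ n : ℕ in atTop, ∃ m ∈ S, n ≤ m ∧ (m : ℝ) ≤ n + δ * √(n : ℝ)

/-- the gaps of `S` are `o(√(n log n))` -/
def LogGaps (S : Set ℕ) : Prop :=
  ∀ δ : ℝ, 0 < δ → ∀ᶠ n : ℕ in atTop, ∃ m ∈ S, n ≤ m ∧
    (m : ℝ) ≤ n + δ * √(n * Real.log n)

open Pool.Agent.R956 Pool.Agent.R956.K6

lemma inc : Tendsto (fun k : ℕ => Real.log (Pool.Agent.R475.SP.y (k + 1)) -
    Real.log (Pool.Agent.R475.SP.y k)) atTop (𝓝 0) := by
  have h := (Real.continuousAt_log (one_ne_zero)).tendsto.comp Pool.Agent.R475.SP.y_ratio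
  rw [Real.log_one] at h
  refine h.congr' ?_
  filter_upwards [eventually_ge_atTop 2] with k hk
  simp only [Function.comp_apply]
  rw [Real.log_div (Pool.Agent.R475.SP.y_pos (by omega)).ne' (Pool.Agent.R475.SP.y_pos hk).ne']

lemma small : Tendsto (fun k : ℕ => Real.log (Pool.Agent.R475.SP.y k) / k) atTop (𝓝 0) := by
  have h1 := inc.cesaro
  have h2 : Tendsto (fun k : ℕ => Real.log (Pool.Agent.R475.SP.y 0) / (k : ℝ)) atTop (𝓝 0) :=
    tendsto_const_div_atTop_nhds_zero_nat _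
  have h3 := h1.add h2
  rw [add_zero] at h3
  refine h3.congr fun k => ?_
  rw [Finset.sum_range_sub (fun k => Real.log (Pool.Agent.R475.SP.y k))]
  rw [div_eq_inv_mul, div_eq_inv_mul]
  ring

lemma incb : ∀ᶠ k : ℕ in atTop, |Real.log (Pool.Agent.R475.SP.y (k + 1)) -
    Real.log (Pool.Agent.R475.SP.y k)| ≤ 1 := by
  have h := Metric.tendsto_nhds.mp inc 1 one_pos
  filter_upwards [h] with k hk
  rw [dist_zero_right, Real.norm_eq_abs] at hk
  exact hk.le

lemma p_pos {k : ℕ} (hk : 2 ≤ k) : 0 < p k := Pool.Agent.H739K.PP_pos hk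

lemma log_p {k : ℕ} (hk : 2 ≤ k) :
    Real.log (p k) = Real.log (Pool.Agent.R475.SP.y k) + k * (2 * Real.log H981.mu) := by
  have hp := p_pos hk
  have hm := H981.mu_pos
  have e : Pool.Agent.R475.SP.y k = p k / H981.mu ^ (2 * k) := rfl
  rw [e, Real.log_div hp.ne' (pow_pos hm _).ne', Real.log_pow]
  push_cast
  ring

/-- **Theorem.** Let `μ` be the connective constant of `ℤ²` and `p_{2n}` the number of self-avoiding
polygons of perimeter `2n` up to translation.
(1) There is `K` such that `∑_{N ≤ n < 2N} |log (p_{2n+4} p_{2n} / p_{2n+2}²)| ≤ K` for all large `N`.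
(2) There is `K` such that for every `η > 0` and all large `N` all but at most `η N` of the
`n ∈ [N, 2N)` satisfy `|log (p_{2n+2j} / p_{2n}) - j log (p_{2n+2} / p_{2n})| ≤ (K / η) j² / N` for all
`j ≤ 2 N`.
(3) Let `B > 0`. If `(p_{4n} / p_{2n}²) (2n)^(-θ) → B` along a set of `n` with gaps `o(√n)`, then
`p_{2n} / (μ^(2n) (2n)^(-θ)) → 2^(-θ) / B` along all `n`.
(4) If `log (p_{4n} / p_{2n}²) / log (2n) → θ` along a set of `n` with gaps `o(√(n log n))`, then
`log (p_{2n} / μ^(2n)) / log (2n) → -θ` along all `n`. -/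
theorem result : ∃ μ : ℝ, 0 < μ ∧
    Tendsto (fun n : ℕ => (C n : ℝ) ^ (1 / (n : ℝ))) atTop (𝓝 μ) ∧
    (∃ K : ℝ, 0 ≤ K ∧ ∀ᶠ N : ℕ in atTop, ∑ n ∈ Finset.Ico N (2 * N),
      |Real.log (p (n + 2) * p n / p (n + 1) ^ 2)| ≤ K) ∧
    (∃ K : ℝ, 0 < K ∧ ∀ η : ℝ, 0 < η → ∀ᶠ N : ℕ in atTop,
      ({n : ℕ | N ≤ n ∧ n < 2 * N ∧ ∃ j : ℕ, j ≤ 2 * N ∧ K / η * (j : ℝ) ^ 2 / N <
        |Real.log (p (n + j) / p n) - j * Real.log (p (n + 1) / p n)|}.ncard : ℝ) ≤ η * N) ∧
    (∀ (S : Set ℕ) (θ B : ℝ), Gaps S → 0 < B →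
      Tendsto (fun n : ℕ => p (2 * n) / p n ^ 2 * (2 * n : ℝ) ^ (-θ)) (atTop ⊓ 𝓟 S) (𝓝 B) →
      Tendsto (fun n : ℕ => p n / μ ^ (2 * n) / (2 * n : ℝ) ^ (-θ)) atTop (𝓝 (2 ^ (-θ) / B))) ∧
    (∀ (S : Set ℕ) (θ : ℝ), LogGaps S →
      Tendsto (fun n : ℕ => Real.log (p (2 * n) / p n ^ 2) / Real.log (2 * n)) (atTop ⊓ 𝓟 S)
        (𝓝 θ) →
      Tendsto (fun n : ℕ => Real.log (p n / μ ^ (2 * n)) / Real.log (2 * n)) atTop (𝓝 (-θ))) := by
  obtain ⟨D, KC⟩ := Pool.Agent.R475.SP.kc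
  have hbv : Bv (fun k => Real.log (Pool.Agent.R475.SP.y k)) := bv_of_conv KC.D0 KC.conv incb
  have hm := H981.mu_pos
  have quo : ∀ k : ℕ, Pool.Agent.R475.SP.y (2 * k) / Pool.Agent.R475.SP.y k ^ 2 =
      p (2 * k) / p k ^ 2 := by
    intro k
    have e1 : Pool.Agent.R475.SP.y (2 * k) = p (2 * k) / H981.mu ^ (2 * (2 * k)) := rfl
    have e2 : Pool.Agent.R475.SP.y k = p k / H981.mu ^ (2 * k) := rfl
    have e : H981.mu ^ (2 * (2 * k)) = (H981.mu ^ (2 * k)) ^ 2 := by rw [← pow_mul]; ring_nf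
    have h2 : H981.mu ^ (2 * k) ≠ 0 := (pow_pos hm _).ne'
    rw [e1, e2, e, div_pow, div_div_div_cancel_right₀ (pow_ne_zero 2 h2)]
  refine ⟨H981.mu, H981.mu_pos, ?_, ?_, ?_, ?_, ?_⟩
  · have h := H981.tendsto_root
    simp only [H981.cr'_eq] at h
    exact h
  · obtain ⟨C, hC, h⟩ := hbv
    refine ⟨C, hC, ?_⟩
    filter_upwards [h, eventually_ge_atTop 2] with N hN hN2
    refine le_trans (le_of_eq (Finset.sum_congr rfl fun k hk => ?_)) hN
    rw [Finset.mem_Ico] at hk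
    have p0 := p_pos (show 2 ≤ k by omega)
    have p1 := p_pos (show 2 ≤ k + 1 by omega)
    have p2 := p_pos (show 2 ≤ k + 2 by omega)
    rw [Real.log_div (by positivity) (by positivity), Real.log_mul p2.ne' p0.ne', Real.log_pow,
      log_p (show 2 ≤ k by omega), log_p (show 2 ≤ k + 1 by omega), log_p (show 2 ≤ k + 2 by omega)]
    unfold dd
    congr 1
    push_cast
    ring
  · obtain ⟨K, hK, h⟩ := hbv.lin
    refine ⟨K, hK, fun η hη => ?_⟩
    filter_upwards [h η hη, eventually_ge_atTop 2] with N hN hN2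
    refine le_trans (le_of_eq ?_) hN
    rw [← Set.ncard_coe_finset]
    congr 2
    ext k
    simp only [Finset.coe_filter, Finset.mem_Ico, Set.mem_ofPred_eq]
    have key : ∀ j : ℕ, N ≤ k → Real.log (p (k + j) / p k) - j * Real.log (p (k + 1) / p k) =
        Real.log (Pool.Agent.R475.SP.y (k + j)) - Real.log (Pool.Agent.R475.SP.y k) -
          j * (Real.log (Pool.Agent.R475.SP.y (k + 1)) - Real.log (Pool.Agent.R475.SP.y k)) := by
      intro j a1
      have p0 := p_pos (show 2 ≤ k by omega)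
      have p1 := p_pos (show 2 ≤ k + 1 by omega)
      have p2 := p_pos (show 2 ≤ k + j by omega)
      rw [Real.log_div p2.ne' p0.ne', Real.log_div p1.ne' p0.ne',
        log_p (show 2 ≤ k by omega), log_p (show 2 ≤ k + 1 by omega),
        log_p (show 2 ≤ k + j by omega)]
      push_cast
      ring
    constructor
    · rintro ⟨a1, a2, j, a3, a4⟩
      rw [key j a1] at a4
      exact ⟨⟨a1, a2⟩, j, a3, a4⟩
    · rintro ⟨⟨a1, a2⟩, j, a3, a4⟩
      refine ⟨a1, a2, j, a3, ?_⟩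
      rw [key j a1]
      exact a4
  · intro S θ B hS hB h
    exact K13.form KC.D0 KC.pos KC.conv small hS hB (a := -θ) (h.congr fun k => by rw [quo])
  · intro S θ hS h
    exact K13.expo KC.D0 KC.pos KC.conv small hS (a := -θ)
      (by
        rw [neg_neg]
        exact h.congr fun k => by rw [quo])

end Pool.Agent.Results.MP_376faf_co.DoublingSparse
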