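import Pool.Agent.H726.GB.ConcW
import Pool.Agent.TH508.LT.Fin2

/-!
Self-avoiding polygons on the square lattice.  For two finite self-avoiding paths `U`, `U'` with the
same end points let `N_{U→U'}(f)` be the number of places where `U` can be replaced by `U'` in the
polygon `f`.  Then `μ^|U| N_{U→U'}(f) - μ^|U'| N_{U'→U}(f)` is of order at most `√n log n`, with
Gaussian tails, in the uniform self-avoiding polygon of perimeter `2n`.
-/

set_option autoImplicit false

namespace Pool.Agent.Results.MP_376faf_co.LocalBalance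

open Filter Topology

/-- the number of `n`-step self-avoiding walks on `ℤ²` started at the origin -/
noncomputable def c (n : ℕ) : ℕ :=
  Nat.card {f : Fin (n + 1) → ℤ × ℤ // f 0 = 0 ∧ Function.Injective f ∧
    ∀ i : Fin n, |(f i.succ).1 - (f i.castSucc).1| + |(f i.succ).2 - (f i.castSucc).2| = 1}

/-- `f` is a self-avoiding polygon of perimeter `2n` on `ℤ²` with a starting point and an
orientation, placed at the origin: an injective closed nearest-neighbour loop with `f 0 = 0`.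
Every self-avoiding polygon of perimeter `2n` (up to translation) is given by exactly `4n` such
loops, so that the uniform loop is the uniform self-avoiding polygon with a uniform root. -/
def IsPolygon (n : ℕ) (f : ZMod (2 * n) → ℤ × ℤ) : Prop :=
  f 0 = 0 ∧ Function.Injective f ∧
    ∀ i : ZMod (2 * n), |(f (i + 1)).1 - (f i).1| + |(f (i + 1)).2 - (f i).2| = 1

/-- the list `f 0, f 1, …, f (2n - 1)` of the sites of the loop -/
def sites (n : ℕ) (f : ZMod (2 * n) → ℤ × ℤ) : List (ℤ × ℤ) :=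
  (List.range (2 * n)).map (fun i : ℕ => f (i : ZMod (2 * n)))

/-- `U` is a finite self-avoiding path on `ℤ²` (with any starting point), given by the list of its
sites. -/
def IsPath (U : List (ℤ × ℤ)) : Prop :=
  U ≠ [] ∧ U.Nodup ∧ U.IsChain (fun p q => |q.1 - p.1| + |q.2 - p.2| = 1)

/-- `N U U' n f`: the number of `x ∈ ℤ²` such that the translated path `x + U` is a block of
consecutive sites of the loop `f` (not containing its root edge, from `f (2n - 1)` to `f 0`), and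
the sites of `x + U'` which are not on `x + U` are not visited by `f`; for two paths with the same
end points this is the number of places where `U` can be replaced by `U'` in `f`. -/
noncomputable def N (U U' : List (ℤ × ℤ)) (n : ℕ) (f : ZMod (2 * n) → ℤ × ℤ) : ℕ :=
  Set.ncard {x : ℤ × ℤ | U.map (x + ·) <:+: sites n f ∧ ∀ y ∈ U', y ∉ U → ∀ i, f i ≠ x + y}

/-- adjacency -/
def A (p q : ℤ × ℤ) : Prop := |q.1 - p.1| + |q.2 - p.2| = 1

theorem lat : H726.GB.Lat A (fun _ => True) where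
  step := by
    intro p q h
    unfold A at h
    have h1 := abs_nonneg (q.1 - p.1)
    have h2 := abs_nonneg (q.2 - p.2)
    rw [abs_sub_comm p.1, abs_sub_comm p.2]
    omega
  shift := by
    intro x _ p q h
    unfold A at h ⊢
    simpa using h

theorem pr {U U' : List (ℤ × ℤ)} (hU : IsPath U) (hU' : IsPath U') (h1 : U.head? = U'.head?)
    (h2 : U.getLast? = U'.getLast?) : H726.GB.Pr A U U' :=
  ⟨hU.1, hU'.1, h1, h2, hU.2.1, hU'.2.1, hU.2.2, hU'.2.2⟩

theorem c_eq (n : ℕ) : (c n : ℝ) = H981.cr' n := by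
  rw [H981.cr'_eq]
  unfold c H981.C H981.IsSAW
  congr 1
  apply Nat.card_congr
  apply Equiv.subtypeEquivRight
  intro f
  constructor
  · rintro ⟨h0, h1, h2⟩
    exact ⟨h0, h2, h1⟩
  · rintro ⟨h0, h2, h1⟩
    exact ⟨h0, h1, h2⟩

theorem c_card (n : ℕ) : (TH966.AK.Kw A n).card = c n := by
  have h := H726.GB.count_filter (H726.GB.rl0 lat) n (fun _ => True)
  simp only [and_true, Finset.filter_true] at h
  rw [h, ← Nat.card_coe_set_eq]
  rfl

theorem up : ∃ K : ℝ, 0 ≤ K ∧ ∀ n : ℕ, 2 ≤ n →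
    ((TH966.AK.Kw A n).card : ℝ) ≤ H981.mu ^ n * Real.exp (K * Real.log n ^ 2) := by
  obtain ⟨K, hK, h⟩ := Pool.Agent.TH508.LT.sq_upper2
  refine ⟨K, hK, fun n hn => ?_⟩
  rw [c_card, c_eq]
  exact h n hn

/-- the weight: the walk ends at a neighbour of the origin -/
noncomputable def wt (w : List (ℤ × ℤ)) : ℝ :=
  open Classical in if ∃ q, w.getLast? = some q ∧ A q 0 then 1 else 0

theorem adj_iff (k : ℕ) (f : Fin (2 * k + 1 + 1) → ℤ × ℤ) :
    (∀ i : Fin (2 * k + 1 + 1), A (f i) (f (i + 1))) ↔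
      (∀ i : Fin (2 * k + 1), A (f i.castSucc) (f i.succ)) ∧ A (f (Fin.last _)) (f 0) := by
  constructor
  · intro h
    refine ⟨fun i => ?_, ?_⟩
    · have := h i.castSucc
      rwa [Fin.coeSucc_eq_succ] at this
    · have := h (Fin.last _)
      rwa [Fin.last_add_one] at this
  · rintro ⟨h1, h2⟩ i
    induction i using Fin.lastCases with
    | last => rw [Fin.last_add_one]; exact h2
    | cast i => rw [Fin.coeSucc_eq_succ]; exact h1 i

theorem sites_eq (k : ℕ) (f : Fin (2 * k + 1 + 1) → ℤ × ℤ) :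
    sites (k + 1) f = List.ofFn f := by
  unfold sites
  apply List.ext_getElem
  · rw [List.length_map, List.length_range, List.length_ofFn]
    rfl
  · intro i h1 h2
    rw [List.getElem_map, List.getElem_range, List.getElem_ofFn]
    have h3 : i < 2 * k + 1 + 1 := by
      rw [List.length_ofFn] at h2
      exact h2
    have e : (show Fin (2 * k + 1 + 1) from ((i : ℕ) : ZMod (2 * (k + 1)))) = ⟨i, h3⟩ := by
      apply Fin.ext
      show ZMod.val ((i : ℕ) : ZMod (2 * (k + 1))) = i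
      rw [ZMod.val_natCast]
      exact Nat.mod_eq_of_lt h3
    exact congrArg f e

theorem getLast_ofFn (m : ℕ) (f : Fin (m + 1) → ℤ × ℤ) :
    (List.ofFn f).getLast? = some (f (Fin.last m)) := by
  rw [List.ofFn_succ', List.concat_eq_append, List.getLast?_append_of_ne_nil _ (by simp)]
  rfl

theorem poly_iff (k : ℕ) (f : Fin (2 * k + 1 + 1) → ℤ × ℤ) : IsPolygon (k + 1) f ↔
    (f 0 = 0 ∧ Function.Injective f ∧ ∀ i : Fin (2 * k + 1), A (f i.castSucc) (f i.succ)) ∧
      ∃ q, (List.ofFn f).getLast? = some q ∧ A q 0 := by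
  have e3 := adj_iff k f
  rw [getLast_ofFn]
  constructor
  · rintro ⟨h3, h4, h5⟩
    have h9 : f (0 : Fin (2 * k + 1 + 1)) = 0 := h3
    have h7 := e3.1 h5
    refine ⟨⟨h3, h4, h7.1⟩, f (Fin.last (2 * k + 1)), rfl, ?_⟩
    have h8 := h7.2
    rw [h9] at h8
    exact h8
  · rintro ⟨⟨h3, h4, h5⟩, q, hq, h7⟩
    rw [Option.some.injEq] at hq
    refine ⟨h3, h4, e3.2 ⟨h5, ?_⟩⟩
    rw [h3, hq]
    exact h7

/-- counting polygons through walks -/
theorem count (k : ℕ) (Q : List (ℤ × ℤ) → Prop) :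
    (Nat.card {f : ZMod (2 * (k + 1)) → ℤ × ℤ // IsPolygon (k + 1) f ∧ Q (sites (k + 1) f)} : ℝ) =
      open Classical in
      ∑ w ∈ (TH966.AK.Kw A (2 * k + 1)).filter Q, wt w := by
  classical
  have h1 : ∑ w ∈ (TH966.AK.Kw A (2 * k + 1)).filter Q, wt w =
      (((TH966.AK.Kw A (2 * k + 1)).filter
        (fun w => (∃ q, w.getLast? = some q ∧ A q 0) ∧ Q w)).card : ℝ) := by
    unfold wt
    rw [← Finset.sum_filter, Finset.filter_filter, Finset.sum_const, nsmul_eq_mul, mul_one]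
    congr 2
    apply Finset.filter_congr
    intro w _
    exact and_comm
  have h2 := H726.GB.count_filter (H726.GB.rl0 lat) (2 * k + 1)
    (fun w => (∃ q, w.getLast? = some q ∧ A q 0) ∧ Q w)
  have h3 : Nat.card {f : ZMod (2 * (k + 1)) → ℤ × ℤ //
      IsPolygon (k + 1) f ∧ Q (sites (k + 1) f)} =
      Set.ncard {f : Fin (2 * k + 1 + 1) → ℤ × ℤ |
        (f 0 = 0 ∧ Function.Injective f ∧ ∀ i : Fin (2 * k + 1), A (f i.castSucc) (f i.succ)) ∧
        ((∃ q, (List.ofFn f).getLast? = some q ∧ A q 0) ∧ Q (List.ofFn f))} := by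
    rw [← Nat.card_coe_set_eq]
    apply Nat.card_congr
    apply Equiv.subtypeEquivRight
    intro f
    have e1 : sites (k + 1) f = List.ofFn (n := 2 * k + 1 + 1) f := sites_eq k f
    rw [e1]
    exact (and_congr (poly_iff k f) Iff.rfl).trans and_assoc
  rw [h3, ← h2]
  refine Eq.trans ?_ h1.symm
  congr!

theorem N_eq (U U' : List (ℤ × ℤ)) (n : ℕ) (hn : n ≠ 0) (f : ZMod (2 * n) → ℤ × ℤ) :
    H726.GB.NL (fun _ => True) U U' (sites n f) = N U U' n f := by
  unfold H726.GB.NL N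
  congr 1
  ext x
  simp only [true_and, Set.mem_ofPred_eq]
  refine and_congr Iff.rfl (forall₂_congr fun y _ => imp_congr Iff.rfl ?_)
  unfold sites
  rw [List.mem_map, not_exists]
  have : NeZero (2 * n) := ⟨by omega⟩
  constructor
  · intro h i hi
    refine h i.val ⟨List.mem_range.2 (ZMod.val_lt i), ?_⟩
    rw [ZMod.natCast_val, ZMod.cast_id]
    exact hi
  · intro h i hi
    exact h _ hi.2

/-- **Theorem.** On `ℤ²` let `μ = lim c_n^(1/n)`. There is a constant `K` such that for all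
self-avoiding paths `U`, `U'` with the same first site and the same last site there is `c > 0` such
that for the uniform (rooted) self-avoiding polygon of perimeter `2n`, all `n ≥ 2` and `t ≥ 0`,
`P (|μ^|U| N_{U→U'} - μ^|U'| N_{U'→U}| ≥ t) ≤ exp (K (log n)^2 - c t^2 / n)`. -/
theorem result : ∃ μ K : ℝ, 0 < μ ∧
    Tendsto (fun n : ℕ => (c n : ℝ) ^ (1 / (n : ℝ))) atTop (𝓝 μ) ∧
    ∀ U U' : List (ℤ × ℤ), IsPath U → IsPath U' → U.head? = U'.head? →
      U.getLast? = U'.getLast? → ∃ c₀ : ℝ, 0 < c₀ ∧ ∀ n : ℕ, 2 ≤ n → ∀ t : ℝ, 0 ≤ t →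
        (Nat.card {f : ZMod (2 * n) → ℤ × ℤ // IsPolygon n f ∧
          t ≤ |μ ^ U.length * N U U' n f - μ ^ U'.length * N U' U n f|} : ℝ) ≤
          Real.exp (K * Real.log n ^ 2 - c₀ * t ^ 2 / n) *
            Nat.card {f : ZMod (2 * n) → ℤ × ℤ // IsPolygon n f} := by
  classical
  obtain ⟨K1, hK1, hup⟩ := up
  obtain ⟨K, hK, h⟩ := H726.GB.conc_w lat H981.one_le_mu hK1 hup
  obtain ⟨K2, hK2, h2⟩ := Pool.Agent.TH508.LT.sq_PP2
  refine ⟨H981.mu, 4 * K + K2, H981.mu_pos, ?_, ?_⟩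
  · simp only [c_eq]
    exact H981.tendsto_root
  · intro U U' hU hU' hh hl
    obtain ⟨c₀, hc₀, h3⟩ := h U U' (pr hU hU' hh hl)
    refine ⟨c₀ / 2, by positivity, fun n hn t ht => ?_⟩
    obtain ⟨k, rfl⟩ : ∃ k, n = k + 1 := ⟨n - 1, by omega⟩
    have hmu := H981.one_le_mu
    have hwt : ∀ w, 0 ≤ wt w ∧ wt w ≤ 1 := by
      intro w
      unfold wt
      split_ifs <;> norm_num
    have h4 := h3 wt hwt (by
      intro w w' _ h5
      unfold wt
      rw [h5]) (2 * k + 1) (by omega) t ht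
    have e1 := count k (fun w => t ≤ |H981.mu ^ U.length * H726.GB.NL (fun _ => True) U U' w -
      H981.mu ^ U'.length * H726.GB.NL (fun _ => True) U' U w|)
    simp only [N_eq _ _ (k + 1) (Nat.succ_ne_zero k)] at e1
    have e1' : (Nat.card {f : ZMod (2 * (k + 1)) → ℤ × ℤ // IsPolygon (k + 1) f ∧
        t ≤ |H981.mu ^ U.length * N U U' (k + 1) f - H981.mu ^ U'.length * N U' U (k + 1) f|} : ℝ) ≤
        Real.exp (K * Real.log ((2 * k + 1 : ℕ) : ℝ) ^ 2 - c₀ * (t ^ 2 / ((2 * k + 1 : ℕ) : ℝ))) *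
          H981.mu ^ (2 * k + 1) := by
      rw [e1]
      convert h4 using 3
    refine e1'.trans ?_
    have h5 := (h2 (k + 1) hn).1
    have h6 : H981.PP (k + 1) = (Nat.card {f : ZMod (2 * (k + 1)) → ℤ × ℤ //
        IsPolygon (k + 1) f} : ℝ) / (4 * ((k + 1 : ℕ) : ℝ)) := rfl
    have hkn : (2 : ℝ) ≤ ((k + 1 : ℕ) : ℝ) := by exact_mod_cast hn
    rw [h6, le_div_iff₀ (by positivity)] at h5
    have h7 : H981.mu ^ (2 * k + 1) * Real.exp (-(K2 * Real.log ((k + 1 : ℕ) : ℝ) ^ 2)) ≤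
        (Nat.card {f : ZMod (2 * (k + 1)) → ℤ × ℤ // IsPolygon (k + 1) f} : ℝ) := by
      refine le_trans ?_ h5
      have h8 : H981.mu ^ (2 * k + 1) ≤ H981.mu ^ (2 * (k + 1)) :=
        pow_le_pow_right₀ hmu (by omega)
      have h9 : H981.mu ^ (2 * k + 1) * Real.exp (-(K2 * Real.log ((k + 1 : ℕ) : ℝ) ^ 2)) ≤
          H981.mu ^ (2 * (k + 1)) * Real.exp (-(K2 * Real.log ((k + 1 : ℕ) : ℝ) ^ 2)) := by
        gcongr
      refine h9.trans (le_mul_of_one_le_right (by positivity) (by linarith))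
    have hlog : Real.log ((2 * k + 1 : ℕ) : ℝ) ≤ 2 * Real.log ((k + 1 : ℕ) : ℝ) := by
      have h8 : ((2 * k + 1 : ℕ) : ℝ) ≤ ((k + 1 : ℕ) : ℝ) ^ 2 := by
        push_cast
        nlinarith [sq_nonneg (k : ℝ)]
      have h9 := Real.log_le_log (by positivity) h8
      rw [Real.log_pow] at h9
      exact_mod_cast h9
    have hlog0 : 0 ≤ Real.log ((2 * k + 1 : ℕ) : ℝ) := by
      apply Real.log_nonneg
      have : 1 ≤ 2 * k + 1 := by omega
      exact_mod_cast this
    have hexp : Real.exp (K * Real.log ((2 * k + 1 : ℕ) : ℝ) ^ 2 -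
        c₀ * (t ^ 2 / ((2 * k + 1 : ℕ) : ℝ))) ≤
        Real.exp ((4 * K + K2) * Real.log ((k + 1 : ℕ) : ℝ) ^ 2 -
          c₀ / 2 * t ^ 2 / ((k + 1 : ℕ) : ℝ)) *
          Real.exp (-(K2 * Real.log ((k + 1 : ℕ) : ℝ) ^ 2)) := by
      rw [← Real.exp_add, Real.exp_le_exp]
      have h8 : Real.log ((2 * k + 1 : ℕ) : ℝ) ^ 2 ≤ (2 * Real.log ((k + 1 : ℕ) : ℝ)) ^ 2 :=
        pow_le_pow_left₀ hlog0 hlog 2
      have h9 : c₀ / 2 * t ^ 2 / ((k + 1 : ℕ) : ℝ) ≤ c₀ * (t ^ 2 / ((2 * k + 1 : ℕ) : ℝ)) := by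
        have e5 : c₀ / 2 * t ^ 2 / ((k + 1 : ℕ) : ℝ) = c₀ * t ^ 2 / (2 * ((k + 1 : ℕ) : ℝ)) := by
          field_simp
        rw [e5, ← mul_div_assoc]
        apply div_le_div_of_nonneg_left (by positivity) (by positivity)
        push_cast
        linarith
      nlinarith
    calc Real.exp (K * Real.log ((2 * k + 1 : ℕ) : ℝ) ^ 2 -
          c₀ * (t ^ 2 / ((2 * k + 1 : ℕ) : ℝ))) * H981.mu ^ (2 * k + 1)
        ≤ (Real.exp ((4 * K + K2) * Real.log ((k + 1 : ℕ) : ℝ) ^ 2 -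
          c₀ / 2 * t ^ 2 / ((k + 1 : ℕ) : ℝ)) *
          Real.exp (-(K2 * Real.log ((k + 1 : ℕ) : ℝ) ^ 2))) * H981.mu ^ (2 * k + 1) := by gcongr
      _ = Real.exp ((4 * K + K2) * Real.log ((k + 1 : ℕ) : ℝ) ^ 2 -
          c₀ / 2 * t ^ 2 / ((k + 1 : ℕ) : ℝ)) *
          (H981.mu ^ (2 * k + 1) * Real.exp (-(K2 * Real.log ((k + 1 : ℕ) : ℝ) ^ 2))) := by ring
      _ ≤ _ := by gcongr

end Pool.Agent.Results.MP_376faf_co.LocalBalance
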