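import Pool.Agent.R475.SP

/-!
Self-avoiding polygons on the square lattice: the asymptotic form, two-sided bounds or the exponent
along sparse sets of perimeters (with gaps of order `√n`), or in the mean over short intervals (of
length of order `√n`), imply the same for all perimeters.
-/

set_option autoImplicit false

namespace Pool.Agent.Results.MP_376faf_co.SparsePerimeters

open Filter Topology

/-- `ω` is a self-avoiding walk with `n` steps on `ℤ²`, started at the origin. -/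
def IsSAW (n : ℕ) (ω : Fin (n + 1) → ℤ × ℤ) : Prop :=
  ω 0 = (0, 0) ∧
  (∀ i : Fin n, |(ω i.succ).1 - (ω i.castSucc).1| + |(ω i.succ).2 - (ω i.castSucc).2| = 1) ∧
  Function.Injective ω

/-- the number of `n`-step self-avoiding walks on `ℤ²` started at the origin -/
noncomputable def C (n : ℕ) : ℕ := Nat.card {ω : Fin (n + 1) → ℤ × ℤ // IsSAW n ω}

/-- `f` runs once around a simple cycle of `ℤ²` with `m` edges, from the origin. -/
def IsPolygon (m : ℕ) (f : ZMod m → ℤ × ℤ) : Prop :=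
  f 0 = 0 ∧ Function.Injective f ∧
    ∀ i : ZMod m, |(f (i + 1)).1 - (f i).1| + |(f (i + 1)).2 - (f i).2| = 1

/-- the number `p_{2n}` of self-avoiding polygons of perimeter `2n`, up to translation: a polygon
has `2n` possible starting points and `2` orientations. -/
noncomputable def p (n : ℕ) : ℝ :=
  (Nat.card {f : ZMod (2 * n) → ℤ × ℤ // IsPolygon (2 * n) f} : ℝ) / (4 * (n : ℝ))

/-- `p_{2n} n^θ / μ^(2n)` -/
noncomputable def R (μ θ : ℝ) (n : ℕ) : ℝ := p n * (n : ℝ) ^ θ / μ ^ (2 * n)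

/-- every interval `[n, n + δ √n]` with `n` large meets `S` -/
def Gaps (δ : ℝ) (S : Set ℕ) : Prop :=
  ∀ᶠ n : ℕ in atTop, ∃ m ∈ S, n ≤ m ∧ (m : ℝ) ≤ n + δ * √(n : ℝ)

/-- the gaps of `S` are `o(√(n log n))` -/
def LogGaps (S : Set ℕ) : Prop :=
  ∀ δ : ℝ, 0 < δ → ∀ᶠ n : ℕ in atTop, ∃ m ∈ S, n ≤ m ∧
    (m : ℝ) ≤ n + δ * √(n * Real.log n)

/-- the mean of `u` over the integers of `[n, n + δ √n]` -/
noncomputable def mean (u : ℕ → ℝ) (δ : ℝ) (n : ℕ) : ℝ :=
  (∑ j ∈ Finset.range (⌊δ * √(n : ℝ)⌋₊ + 1), u (n + j)) / ((⌊δ * √(n : ℝ)⌋₊ : ℝ) + 1)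

/-- **Theorem.** Let `μ` be the connective constant of `ℤ²`, `p_{2n}` the number of self-avoiding
polygons of perimeter `2n` up to translation and `R_θ(n) = p_{2n} μ^(-2n) n^θ`.
(1) If `A ≤ R_θ(n) ≤ B` with `A > 0` for the large `n` in a set `S` which meets `[n, n + δ √n]` for
all large `n`, or if the mean of `R_θ` over `[n, n + δ √n]` is between `A` and `B` for all large
`n`, then such bounds on `R_θ(n)`, with other constants, hold for all large `n`.
(2) If `log (p_{2n} / μ^(2n)) / log n → -θ` along a set with gaps `o(√(n log n))`, then along all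
`n`, and `(p_{2n+2} / p_{2n} - μ²) √(n / log n) → 0`.
(3) Let `c > 0`. If `R_θ(n) → c` along a set with gaps `o(√n)`, or if for each `δ > 0` the mean of
`R_θ` over `[n, n + δ √n]` tends to `c`, then `R_θ(n) → c` along all `n`, and
`(p_{2n+2} / p_{2n} - μ²) √n → 0`. -/
theorem result : ∃ μ : ℝ, 0 < μ ∧
    Tendsto (fun n : ℕ => (C n : ℝ) ^ (1 / (n : ℝ))) atTop (𝓝 μ) ∧
    (∀ δ θ A B : ℝ, 0 < δ → 0 < A →
      ((∃ S, Gaps δ S ∧ ∀ᶠ n : ℕ in atTop, n ∈ S → A ≤ R μ θ n ∧ R μ θ n ≤ B) ∨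
        ∀ᶠ n : ℕ in atTop, A ≤ mean (R μ θ) δ n ∧ mean (R μ θ) δ n ≤ B) →
      ∃ A' B' : ℝ, 0 < A' ∧ 0 < B' ∧ ∀ᶠ n : ℕ in atTop, A' ≤ R μ θ n ∧ R μ θ n ≤ B') ∧
    (∀ (θ : ℝ) (S : Set ℕ), LogGaps S →
      Tendsto (fun n : ℕ => Real.log (p n / μ ^ (2 * n)) / Real.log n) (atTop ⊓ 𝓟 S) (𝓝 (-θ)) →
      Tendsto (fun n : ℕ => Real.log (p n / μ ^ (2 * n)) / Real.log n) atTop (𝓝 (-θ)) ∧
      Tendsto (fun n : ℕ => (p (n + 1) / p n - μ ^ 2) * √(n / Real.log n)) atTop (𝓝 0)) ∧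
    (∀ θ c : ℝ, 0 < c →
      ((∃ S, (∀ δ : ℝ, 0 < δ → Gaps δ S) ∧ Tendsto (R μ θ) (atTop ⊓ 𝓟 S) (𝓝 c)) ∨
        ∀ δ : ℝ, 0 < δ → Tendsto (mean (R μ θ) δ) atTop (𝓝 c)) →
      Tendsto (R μ θ) atTop (𝓝 c) ∧
      Tendsto (fun n : ℕ => (p (n + 1) / p n - μ ^ 2) * √(n : ℝ)) atTop (𝓝 0)) := by
  refine ⟨H981.mu, H981.mu_pos, ?_, ?_, ?_, ?_⟩
  · have h := H981.tendsto_root
    simp only [H981.cr'_eq] at h
    exact h
  · intro δ θ A B hδ hA h
    rcases h with ⟨S, hS, h⟩ | h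
    · exact Pool.Agent.R475.SP.bounds hδ hS hA h
    · exact Pool.Agent.R475.SP.avg_bounds hδ hA h
  · intro θ S hS h
    exact Pool.Agent.R475.SP.expo hS h
  · intro θ c hc h
    rcases h with ⟨S, hS, h⟩ | h
    · exact Pool.Agent.R475.SP.form hS hc h
    · have h1 : Tendsto (R H981.mu θ) atTop (𝓝 c) := Pool.Agent.R475.SP.local_avg hc h
      refine ⟨h1, ?_⟩
      refine (Pool.Agent.R475.SP.form (S := Set.univ) (θ := θ) (A := c) ?_ hc ?_).2
      · intro δ hδ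
        exact Eventually.of_forall fun n => ⟨n, Set.mem_univ n, le_rfl, by
          have : 0 ≤ δ * √(n : ℝ) := by positivity
          linarith⟩
      · rw [principal_univ, inf_top_eq]
        exact h1

end Pool.Agent.Results.MP_376faf_co.SparsePerimeters
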