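import Pool.Agent.R475.WC

/-!
Self-avoiding polygons on the square lattice: the number of polygons of perimeter `2n` and width
at least `i` is at most `K μ^(2n) / (i √n)`, for all `n ≥ 2` and `i ≥ 1`; and
`p_{2n} W_n ≤ K (log n / √n) μ^(2n)`, with `W_n` the mean width at perimeter `2n`.
-/

namespace Pool.Agent.Results.MP_376faf_co.WidthTimesCount

open Filter Topology

/-- the number of `n`-step self-avoiding walks on `ℤ²` started at the origin -/
noncomputable def c (n : ℕ) : ℕ :=
  Nat.card {f : Fin (n + 1) → ℤ × ℤ // f 0 = 0 ∧ Function.Injective f ∧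
    ∀ i : Fin n, |(f i.succ).1 - (f i.castSucc).1| + |(f i.succ).2 - (f i.castSucc).2| = 1}

/-- a closed nearest-neighbour loop on `ℤ²` with `m` steps, rooted at the origin and oriented,
that visits no vertex twice -/
def IsLoop (m : ℕ) (f : ZMod m → ℤ × ℤ) : Prop :=
  f 0 = 0 ∧ Function.Injective f ∧
    ∀ i : ZMod m, |(f (i + 1)).1 - (f i).1| + |(f (i + 1)).2 - (f i).2| = 1

/-- the width (horizontal extent) of a loop -/
noncomputable def width (m : ℕ) (f : ZMod m → ℤ × ℤ) : ℕ :=
  sSup {w : ℕ | ∃ i j, w = ((f i).1 - (f j).1).natAbs}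

/-- the number of self-avoiding polygons of perimeter `2n` on `ℤ²` up to translation: the number
of rooted oriented loops with `2n` steps, divided by `4n` (the choices of the starting point and
of the orientation) -/
noncomputable def p (n : ℕ) : ℝ :=
  (Nat.card {f : ZMod (2 * n) → ℤ × ℤ // IsLoop (2 * n) f} : ℝ) / (4 * (n : ℝ))

/-- the number of self-avoiding polygons of perimeter `2n` and width at least `i`, up to
translation -/
noncomputable def pw (n i : ℕ) : ℝ :=
  (Nat.card {f : ZMod (2 * n) → ℤ × ℤ // IsLoop (2 * n) f ∧ i ≤ width (2 * n) f} : ℝ) /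
    (4 * (n : ℝ))

/-- the mean width `W_n` of the self-avoiding polygons of perimeter `2 n`: the average of the
width over the rooted oriented polygons. -/
noncomputable def W (n : ℕ) : ℝ :=
  (∑ᶠ f ∈ {f : ZMod (2 * n) → ℤ × ℤ | IsLoop (2 * n) f}, (width (2 * n) f : ℝ)) /
    ({f : ZMod (2 * n) → ℤ × ℤ | IsLoop (2 * n) f}.ncard : ℝ)

lemma c_eq (n : ℕ) : (c n : ℝ) = H981.cr' n := by
  rw [H981.cr'_eq]
  unfold c H981.C H981.IsSAW
  congr 1
  apply Nat.card_congr
  apply Equiv.subtypeEquivRight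
  intro f
  constructor
  · rintro ⟨h0, h1, h2⟩
    exact ⟨h0, h2, h1⟩
  · rintro ⟨h0, h2, h1⟩
    exact ⟨h0, h1, h2⟩

lemma p_eq (n : ℕ) : p n = H981.PP n := rfl

lemma W_eq {n : ℕ} (hn : 2 ≤ n) : W n = Pool.Agent.W870.Pg.MW n := Pool.Agent.W870.Pg.MW_eq hn

lemma pw_eq {n : ℕ} (hn : 2 ≤ n) (i : ℕ) :
    pw n i = (Pool.Agent.R475.WC.LW n i : ℝ) / (4 * n) := by
  classical
  have : NeZero (2 * n) := ⟨by omega⟩
  unfold pw Pool.Agent.R475.WC.LW
  congr 2
  rw [← Fintype.card_coe, ← Nat.card_eq_fintype_card]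
  apply Nat.card_congr
  apply Equiv.subtypeEquivRight
  intro f
  rw [Finset.mem_filter, Pool.Agent.W870.Pg.mem_LF]
  exact Iff.rfl

/-- **Theorem.** Let `μ` be the connective constant of `ℤ²`, `p_{2n}` the number of self-avoiding
polygons of perimeter `2n` up to translation, `W_n` their mean width.  There is a constant `K`
such that for all `n ≥ 2`: (1) for every `i ≥ 1`, at most `(K / (i √n)) μ^(2n)` polygons of
perimeter `2n` have width at least `i`; (2) `p_{2n} W_n ≤ K (log n / √n) μ^(2n)`. -/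
theorem result : ∃ μ : ℝ, 0 < μ ∧
    Tendsto (fun n : ℕ => (c n : ℝ) ^ ((1:ℝ) / (n : ℝ))) atTop (𝓝 μ) ∧
    ∃ K : ℝ, ∀ n : ℕ, 2 ≤ n →
      (∀ i : ℕ, 1 ≤ i → pw n i ≤ K / (i * Real.sqrt n) * μ ^ (2 * n)) ∧
      p n * W n ≤ K * (Real.log n / Real.sqrt n) * μ ^ (2 * n) := by
  refine ⟨H981.mu, H981.mu_pos, ?_, ?_⟩
  · simp only [c_eq]
    exact H981.tendsto_root
  · obtain ⟨K1, hK1, h1⟩ := Pool.Agent.R475.WC.wtail
    obtain ⟨K2, hK2, h2⟩ := Pool.Agent.R475.WC.mean_count
    have hmu := H981.mu_pos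
    refine ⟨K1 + K2, fun n hn => ⟨fun i hi => ?_, ?_⟩⟩
    · rw [pw_eq hn]
      refine (h1 n hn i hi).trans ?_
      apply mul_le_mul_of_nonneg_right _ (pow_pos hmu _).le
      apply div_le_div_of_nonneg_right _ (by positivity)
      linarith
    · rw [p_eq, W_eq hn]
      refine (h2 n hn).trans ?_
      apply mul_le_mul_of_nonneg_right _ (pow_pos hmu _).le
      apply mul_le_mul_of_nonneg_right
      · linarith
      · have hl : 0 ≤ Real.log n := Real.log_natCast_nonneg _
        positivity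

end Pool.Agent.Results.MP_376faf_co.WidthTimesCount
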